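import Pool.Agent.Q86.ToepMM

/-!
# `c_N > π/2` for every `N ≥ 2`
-/

set_option autoImplicit false

open MeasureTheory AddCircle Set Pool.Agent.Q86.ToepMM
open scoped ENNReal ComplexConjugate

noncomputable section

namespace Pool.Agent.Results.MP_becf51_an.AllN

/-! ### two integrals -/

lemma int_abs_of_nonneg {g F : ℝ → ℝ} {a b : ℝ} (hab : a ≤ b)
    (hF : ∀ x, HasDerivAt F (g x) x) (hg : Continuous g) (h : ∀ x ∈ Icc a b, 0 ≤ g x) :
    ∫ x in a..b, |g x| = F b - F a := by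
  have h1 : ∫ x in a..b, |g x| = ∫ x in a..b, g x := by
    apply intervalIntegral.integral_congr
    intro x hx
    rw [uIcc_of_le hab] at hx
    exact abs_of_nonneg (h x hx)
  rw [h1]
  exact intervalIntegral.integral_eq_sub_of_hasDerivAt (fun x _ => hF x)
    (hg.intervalIntegrable _ _)

lemma int_abs_of_nonpos {g F : ℝ → ℝ} {a b : ℝ} (hab : a ≤ b)
    (hF : ∀ x, HasDerivAt F (g x) x) (hg : Continuous g) (h : ∀ x ∈ Icc a b, g x ≤ 0) :
    ∫ x in a..b, |g x| = F a - F b := by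
  have h1 : ∫ x in a..b, |g x| = ∫ x in a..b, -g x := by
    apply intervalIntegral.integral_congr
    intro x hx
    rw [uIcc_of_le hab] at hx
    exact abs_of_nonpos (h x hx)
  rw [h1, intervalIntegral.integral_neg, intervalIntegral.integral_eq_sub_of_hasDerivAt
    (fun x _ => hF x) (hg.intervalIntegrable _ _)]
  ring

/-- the first test polynomial -/
def g1 (x : ℝ) : ℝ := Real.cos x + Real.cos (2 * x)

lemma g1_cont : Continuous g1 := by unfold g1; fun_prop

lemma g1_eq (x : ℝ) : g1 x = (2 * Real.cos x - 1) * (Real.cos x + 1) := by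
  rw [g1, Real.cos_two_mul]; ring

lemma g1_deriv (x : ℝ) : HasDerivAt (fun x => Real.sin x + Real.sin (2 * x) / 2) (g1 x) x := by
  have h1 := Real.hasDerivAt_sin x
  have h2 : HasDerivAt (fun x : ℝ => Real.sin (2 * x)) (Real.cos (2 * x) * 2) x := by
    have h3 : HasDerivAt (fun x : ℝ => 2 * x) 2 x := by
      simpa using (hasDerivAt_id x).const_mul 2
    exact (Real.hasDerivAt_sin (2 * x)).comp x h3
  have h4 := h1.add (h2.div_const 2)
  have e : Real.cos x + Real.cos (2 * x) * 2 / 2 = g1 x := by rw [g1]; ring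
  rw [e] at h4
  exact h4

lemma int_g1 : ∫ x in (-Real.pi)..(-Real.pi + 2 * Real.pi), |g1 x| = 3 * Real.sqrt 3 := by
  have hpi := Real.pi_pos
  have e0 : -Real.pi + 2 * Real.pi = Real.pi := by ring
  rw [e0]
  have hint : ∀ a b, IntervalIntegrable (fun x => |g1 x|) volume a b := fun a b =>
    (g1_cont.abs).intervalIntegrable a b
  rw [← intervalIntegral.integral_add_adjacent_intervals (hint (-Real.pi) (-(Real.pi / 3)))
      (hint _ _),
    ← intervalIntegral.integral_add_adjacent_intervals (hint (-(Real.pi / 3)) (Real.pi / 3))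
      (hint _ _)]
  have c3 : Real.cos (Real.pi / 3) = 1 / 2 := Real.cos_pi_div_three
  have h1 : ∀ x, 0 ≤ x → x ≤ Real.pi / 3 → 0 ≤ g1 x := by
    intro x h0 hx
    have := Real.cos_le_cos_of_nonneg_of_le_pi h0 (by linarith) hx
    rw [c3] at this
    rw [g1_eq]
    exact mul_nonneg (by linarith) (by linarith)
  have h2 : ∀ x, Real.pi / 3 ≤ x → x ≤ Real.pi → g1 x ≤ 0 := by
    intro x h0 hx
    have := Real.cos_le_cos_of_nonneg_of_le_pi (by positivity) hx h0
    rw [c3] at this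
    rw [g1_eq]
    exact mul_nonpos_of_nonpos_of_nonneg (by linarith) (by linarith [Real.neg_one_le_cos x])
  have hev : ∀ x, g1 (-x) = g1 x := by
    intro x
    rw [g1, g1, Real.cos_neg, mul_neg, Real.cos_neg]
  rw [int_abs_of_nonpos (by linarith) g1_deriv g1_cont, int_abs_of_nonneg (by linarith) g1_deriv
    g1_cont, int_abs_of_nonpos (by linarith) g1_deriv g1_cont]
  · have s1 : Real.sin (Real.pi / 3) = Real.sqrt 3 / 2 := Real.sin_pi_div_three
    have s2 : Real.sin (2 * (Real.pi / 3)) = Real.sqrt 3 / 2 := by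
      rw [Real.sin_two_mul, s1, c3]; ring
    have s3 : Real.sin (2 * -(Real.pi / 3)) = -(Real.sqrt 3 / 2) := by
      rw [mul_neg, Real.sin_neg, s2]
    have s4 : Real.sin (2 * -Real.pi) = 0 := by
      rw [mul_neg, Real.sin_neg, Real.sin_two_pi, neg_zero]
    simp only [Real.sin_neg, Real.sin_pi, Real.sin_two_pi, s1, s2, s3, s4]
    ring
  · intro x hx
    exact h2 x hx.1 hx.2
  · intro x hx
    rcases le_total 0 x with h | h
    · exact h1 x h hx.2
    · rw [← hev]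
      exact h1 (-x) (by linarith) (by linarith [hx.1])
  · intro x hx
    rw [← hev]
    exact h2 (-x) (by linarith [hx.2]) (by linarith [hx.1])

/-- the second test polynomial -/
def g3 (x : ℝ) : ℝ := 4 * Real.cos (3 * x) - 3 * Real.cos x

lemma g3_cont : Continuous g3 := by unfold g3; fun_prop

lemma g3_eq (x : ℝ) : g3 x = Real.cos x * (1 - 16 * Real.sin x ^ 2) := by
  rw [g3, Real.cos_three_mul]
  have := Real.sin_sq_add_cos_sq x
  have h : Real.sin x ^ 2 = 1 - Real.cos x ^ 2 := by linarith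
  rw [h]; ring

lemma g3_deriv (x : ℝ) :
    HasDerivAt (fun x => Real.sin x - 16 / 3 * Real.sin x ^ 3) (g3 x) x := by
  have h1 := Real.hasDerivAt_sin x
  have h2 := (h1.pow 3).const_mul (16 / 3 : ℝ)
  have h4 := h1.sub h2
  have e : Real.cos x - 16 / 3 * (((3 : ℕ) : ℝ) * Real.sin x ^ (3 - 1) * Real.cos x) = g3 x := by
    rw [g3_eq]; push_cast; ring
  rw [e] at h4
  exact h4

lemma int_g3 : ∫ x in (-(Real.pi / 2))..(-(Real.pi / 2) + 2 * Real.pi), |g3 x| = 56 / 3 := by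
  have hpi := Real.pi_pos
  have hint : ∀ a b, IntervalIntegrable (fun x => |g3 x|) volume a b := fun a b =>
    (g3_cont.abs).intervalIntegrable a b
  have hev : ∀ x, g3 (-x) = g3 x := by
    intro x
    rw [g3, g3, Real.cos_neg, mul_neg, Real.cos_neg]
  have hper : ∀ x, |g3 (x + Real.pi)| = |g3 x| := by
    intro x
    have : g3 (x + Real.pi) = -g3 x := by
      rw [g3_eq, g3_eq, Real.cos_add_pi, Real.sin_add_pi]; ring
    rw [this, abs_neg]
  -- reduction to `[-π/2, π/2]`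
  have hred : ∫ x in (-(Real.pi / 2))..(-(Real.pi / 2) + 2 * Real.pi), |g3 x| =
      2 * ∫ x in (-(Real.pi / 2))..(Real.pi / 2), |g3 x| := by
    rw [← intervalIntegral.integral_add_adjacent_intervals (hint (-(Real.pi / 2)) (Real.pi / 2))
      (hint _ _)]
    have h1 : ∫ x in (Real.pi / 2)..(-(Real.pi / 2) + 2 * Real.pi), |g3 x| =
        ∫ x in (-(Real.pi / 2))..(Real.pi / 2), |g3 (x + Real.pi)| := by
      rw [intervalIntegral.integral_comp_add_right (fun x => |g3 x|) Real.pi]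
      congr 1 <;> ring
    rw [h1]
    simp_rw [hper]
    ring
  rw [hred]
  set α : ℝ := Real.arcsin (1 / 4) with hα
  have hsα : Real.sin α = 1 / 4 := Real.sin_arcsin (by norm_num) (by norm_num)
  have hα0 : 0 ≤ α := Real.arcsin_nonneg.2 (by norm_num)
  have hα1 : α ≤ Real.pi / 2 := Real.arcsin_le_pi_div_two _
  rw [← intervalIntegral.integral_add_adjacent_intervals (hint (-(Real.pi / 2)) (-α))
      (hint _ _),
    ← intervalIntegral.integral_add_adjacent_intervals (hint (-α) α) (hint _ _)]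
  have h1 : ∀ x, 0 ≤ x → x ≤ α → 0 ≤ g3 x := by
    intro x h0 hx
    have hs : Real.sin x ≤ Real.sin α :=
      Real.sin_le_sin_of_le_of_le_pi_div_two (by linarith) hα1 hx
    have hs0 : 0 ≤ Real.sin x := Real.sin_nonneg_of_nonneg_of_le_pi h0 (by linarith)
    have hc : 0 ≤ Real.cos x := Real.cos_nonneg_of_neg_pi_div_two_le_of_le (by linarith)
      (by linarith)
    rw [hsα] at hs
    rw [g3_eq]
    exact mul_nonneg hc (by nlinarith)
  have h2 : ∀ x, α ≤ x → x ≤ Real.pi / 2 → g3 x ≤ 0 := by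
    intro x h0 hx
    have hs : Real.sin α ≤ Real.sin x :=
      Real.sin_le_sin_of_le_of_le_pi_div_two (by linarith) hx h0
    have hc : 0 ≤ Real.cos x := Real.cos_nonneg_of_neg_pi_div_two_le_of_le (by linarith)
      (by linarith)
    rw [hsα] at hs
    rw [g3_eq]
    exact mul_nonpos_of_nonneg_of_nonpos hc (by nlinarith)
  rw [int_abs_of_nonpos (by linarith) g3_deriv g3_cont, int_abs_of_nonneg (by linarith) g3_deriv
    g3_cont, int_abs_of_nonpos (by linarith) g3_deriv g3_cont]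
  · simp only [Real.sin_neg, Real.sin_pi_div_two, hsα]
    norm_num
  · intro x hx
    exact h2 x hx.1 hx.2
  · intro x hx
    rcases le_total 0 x with h | h
    · exact h1 x h hx.2
    · rw [← hev]
      exact h1 (-x) (by linarith) (by linarith [hx.1])
  · intro x hx
    rw [← hev]
    exact h2 (-x) (by linarith [hx.2]) (by linarith [hx.1])

/-! ### the first family -/

/-- the symbol `1 - (2/3) ∑_{k ∣ n} zⁿ` -/
def b1 (k : ℕ) (n : ℤ) : ℂ := (if n = 0 then 1 else 0) - 2 / 3 * (if (k : ℤ) ∣ n then 1 else 0)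

lemma b1_conj (k : ℕ) (n : ℤ) : b1 k (-n) = conj (b1 k n) := by
  unfold b1
  simp only [dvd_neg, neg_eq_zero]
  by_cases h : n = 0 <;> by_cases h' : (k : ℤ) ∣ n <;> simp [h, h', Complex.conj_ofNat]

lemma b1_apply (k : ℕ) (hk : 1 ≤ k) (m : ℤ) (hm : m ≠ 0) : b1 k (k * m) = -2 / 3 := by
  unfold b1
  have h1 : (k : ℤ) * m ≠ 0 := mul_ne_zero (by exact_mod_cast (by omega : k ≠ 0)) hm
  rw [if_neg h1, if_pos (dvd_mul_right _ _)]
  ring

lemma fiber_sum (F : Type) [DecidableEq F] (s : Finset F) (hs : s.card ≤ 3) (x : F → ℂ) :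
    ∑ j ∈ s, ‖x j - 2 / 3 * ∑ l ∈ s, x l‖ ^ 2 ≤ ∑ j ∈ s, ‖x j‖ ^ 2 := by
  set S := ∑ l ∈ s, x l with hS
  have h1 : ∀ j, ‖x j - 2 / 3 * S‖ ^ 2 =
      ‖x j‖ ^ 2 - 4 / 3 * (x j * conj S).re + 4 / 9 * ‖S‖ ^ 2 := by
    intro j
    rw [← Complex.normSq_eq_norm_sq, ← Complex.normSq_eq_norm_sq, ← Complex.normSq_eq_norm_sq,
      Complex.normSq_sub, Complex.normSq_mul]
    have e1 : Complex.normSq (2 / 3) = 4 / 9 := by
      rw [show (2 / 3 : ℂ) = ((2 / 3 : ℝ) : ℂ) by push_cast; rfl, Complex.normSq_ofReal]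
      norm_num
    have e2 : (x j * conj (2 / 3 * S)).re = 2 / 3 * (x j * conj S).re := by
      have : x j * conj (2 / 3 * S) = ((2 / 3 : ℝ) : ℂ) * (x j * conj S) := by
        rw [map_mul]
        have : conj (2 / 3 : ℂ) = ((2 / 3 : ℝ) : ℂ) := by
          rw [show (2 / 3 : ℂ) = ((2 / 3 : ℝ) : ℂ) by push_cast; rfl, Complex.conj_ofReal]
        rw [this]; ring
      rw [this, Complex.re_ofReal_mul]
    rw [e1, e2]
    ring
  simp_rw [h1]
  rw [Finset.sum_add_distrib, Finset.sum_sub_distrib, ← Finset.mul_sum, ← Complex.re_sum,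
    ← Finset.sum_mul, ← hS, Finset.sum_const, nsmul_eq_mul]
  have h2 : (S * conj S).re = ‖S‖ ^ 2 := by
    rw [Complex.mul_conj, Complex.ofReal_re, Complex.normSq_eq_norm_sq]
  rw [h2]
  have h3 : (s.card : ℝ) ≤ 3 := by exact_mod_cast hs
  nlinarith [sq_nonneg ‖S‖]

lemma opn_b1 (N k : ℕ) (hk : 1 ≤ k) (hN : N + 1 ≤ 3 * k) : opn N (b1 k) ≤ 1 := by
  refine opn_le_of N _ 1 zero_le_one fun x => ?_
  rw [one_pow, one_mul]
  set y := x.ofLp with hy
  -- the fibers
  let F : ℕ → Finset (Fin (N + 1)) := fun r => Finset.univ.filter fun l => (l : ℕ) % k = r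
  have hmul : ∀ j : Fin (N + 1), (toep N (b1 k)).mulVec y j =
      y j - 2 / 3 * ∑ l ∈ F ((j : ℕ) % k), y l := by
    intro j
    rw [Matrix.mulVec, dotProduct]
    have h1 : ∀ l : Fin (N + 1), toep N (b1 k) j l * y l =
        (if l = j then y l else 0) - 2 / 3 * (if (l : ℕ) % k = (j : ℕ) % k then y l else 0) := by
      intro l
      have e1 : ((j : ℤ) - (l : ℤ) = 0) ↔ l = j := by
        rw [sub_eq_zero, Fin.ext_iff]
        constructor
        · intro h; exact_mod_cast h.symm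
        · intro h; exact_mod_cast h.symm
      have e2 : ((k : ℤ) ∣ (j : ℤ) - (l : ℤ)) ↔ (l : ℕ) % k = (j : ℕ) % k := by
        rw [← Int.modEq_iff_dvd]
        exact Int.natCast_modEq_iff
      show b1 k ((j : ℤ) - (l : ℤ)) * y l = _
      unfold b1
      simp only [e1, e2]
      by_cases h : l = j <;> by_cases h' : (l : ℕ) % k = (j : ℕ) % k <;> simp [h, h'] <;> ring_nf
    simp_rw [h1]
    rw [Finset.sum_sub_distrib, Finset.sum_ite_eq' Finset.univ j, ← Finset.mul_sum,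
      Finset.sum_filter]
    simp
  have hcard : ∀ r, (F r).card ≤ 3 := by
    intro r
    have h1 : (F r).card ≤ (Finset.range 3).card := by
      refine Finset.card_le_card_of_injOn (fun l : Fin (N + 1) => (l : ℕ) / k) ?_ ?_
      · intro l _
        rw [Finset.mem_coe, Finset.mem_range]
        refine Nat.div_lt_of_lt_mul ?_
        have := l.2
        rw [mul_comm]
        omega
      · intro l hl l' hl' h
        have h2 : (l : ℕ) % k = r := (Finset.mem_filter.1 hl).2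
        have h3 : (l' : ℕ) % k = r := (Finset.mem_filter.1 hl').2
        apply Fin.ext
        rw [← Nat.div_add_mod (l : ℕ) k, ← Nat.div_add_mod (l' : ℕ) k, h2, h3]
        have h4 : (l : ℕ) / k = (l' : ℕ) / k := h
        rw [h4]
    simpa using h1
  have hfib : ∀ g : Fin (N + 1) → ℝ, ∑ j, g j = ∑ r ∈ Finset.range k, ∑ j ∈ F r, g j := by
    intro g
    exact (Finset.sum_fiberwise_of_maps_to (s := Finset.univ) (t := Finset.range k)
      (g := fun l : Fin (N + 1) => (l : ℕ) % k)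
      (fun l _ => Finset.mem_range.2 (Nat.mod_lt _ (by omega))) g).symm
  rw [hfib, hfib]
  refine Finset.sum_le_sum fun r _ => ?_
  have h5 : ∑ j ∈ F r, ‖(toep N (b1 k)).mulVec y j‖ ^ 2 =
      ∑ j ∈ F r, ‖y j - 2 / 3 * ∑ l ∈ F r, y l‖ ^ 2 := by
    refine Finset.sum_congr rfl fun j hj => ?_
    rw [hmul j, (Finset.mem_filter.1 hj).2]
  rw [h5]
  exact fiber_sum _ (F r) (hcard r) y

lemma norm_test1 : ∫ x : 𝕋, ‖∑ n ∈ ({1, -1, 2, -2} : Finset ℤ), (1 : ℂ) * fourier n x‖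
    ∂haarAddCircle = 3 * Real.sqrt 3 / Real.pi := by
  rw [integral_circle _ (-Real.pi)]
  have h1 : ∀ x : ℝ, ‖∑ n ∈ ({1, -1, 2, -2} : Finset ℤ), (1 : ℂ) * fourier n (x : 𝕋)‖ =
      2 * |g1 x| := by
    intro x
    have e1 : ∑ n ∈ ({1, -1, 2, -2} : Finset ℤ), (1 : ℂ) * fourier n (x : 𝕋) =
        ((2 * g1 x : ℝ) : ℂ) := by
      rw [Finset.sum_insert (by decide), Finset.sum_insert (by decide),
        Finset.sum_insert (by decide), Finset.sum_singleton]
      have f1 := fourier_cos 1 x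
      have f2 := fourier_cos 2 x
      simp only [one_mul] at *
      rw [← add_assoc, f1, f2, g1]
      push_cast
      ring
    rw [e1, Complex.norm_real, Real.norm_eq_abs, abs_mul, abs_of_pos (by norm_num : (0:ℝ) < 2)]
  have h2 : ∫ x in (-Real.pi)..(-Real.pi + 2 * Real.pi),
      ‖∑ n ∈ ({1, -1, 2, -2} : Finset ℤ), (1 : ℂ) * fourier n (x : 𝕋)‖ =
      ∫ x in (-Real.pi)..(-Real.pi + 2 * Real.pi), 2 * |g1 x| :=
    intervalIntegral.integral_congr fun x _ => h1 x
  rw [h2, intervalIntegral.integral_const_mul, int_g1]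
  have := Real.pi_ne_zero
  field_simp

/-- the case of all `N` with `2k ≤ N ≤ 3k - 1` -/
lemma family (N k : ℕ) (hk : 1 ≤ k) (h2 : 2 * k ≤ N) (h3 : N + 1 ≤ 3 * k) :
    ∃ r ∈ ratios N, 8 * Real.pi / (9 * Real.sqrt 3) ≤ r := by
  have hpi := Real.pi_pos
  have hs3 : 0 < Real.sqrt 3 := Real.sqrt_pos.2 (by norm_num)
  refine lower N (b1 k) (b1_conj k) ?_ (opn_b1 N k hk h3) _ (by positivity) ?_
  · intro h0
    have h4 : toep N (b1 k) ⟨k, by omega⟩ ⟨0, Nat.succ_pos N⟩ = 0 := by rw [h0]; rfl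
    have h5 : toep N (b1 k) ⟨k, by omega⟩ ⟨0, Nat.succ_pos N⟩ = -2 / 3 := by
      have := b1_apply k hk 1 one_ne_zero
      rw [mul_one] at this
      rw [← this]
      show b1 k ((k : ℤ) - ((0 : ℕ) : ℤ)) = _
      simp
    rw [h5] at h4
    norm_num at h4
  · rintro f ⟨hf1, hf2⟩
    have h4 := pair_le f hf1 ({1, -1, 2, -2} : Finset ℤ) (fun _ => 1) k
      (by exact_mod_cast (by omega : k ≠ 0))
    rw [norm_test1] at h4
    have hc : ∀ n : ℤ, n ≠ 0 → |n| ≤ 2 → fourierCoeff f (-(k * n)) = -2 / 3 := by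
      intro n hn hn2
      rw [hf2]
      · rw [← mul_neg]
        exact b1_apply k hk (-n) (neg_ne_zero.2 hn)
      · rw [abs_neg, abs_mul, Nat.abs_cast]
        have h5 : (k : ℤ) * |n| ≤ k * 2 := by gcongr
        have h6 : ((2 * k : ℕ) : ℤ) ≤ (N : ℤ) := by exact_mod_cast h2
        push_cast at h6
        linarith
    have hsum : ∑ n ∈ ({1, -1, 2, -2} : Finset ℤ), (1 : ℂ) * fourierCoeff f (-(k * n)) =
        -8 / 3 := by
      rw [Finset.sum_insert (by decide), Finset.sum_insert (by decide),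
        Finset.sum_insert (by decide), Finset.sum_singleton, hc 1 (by norm_num) (by norm_num),
        hc (-1) (by norm_num) (by norm_num), hc 2 (by norm_num) (by norm_num),
        hc (-2) (by norm_num) (by norm_num)]
      norm_num
    rw [hsum] at h4
    have hn : ‖(-8 / 3 : ℂ)‖ = 8 / 3 := by
      rw [show (-8 / 3 : ℂ) = ((-8 / 3 : ℝ) : ℂ) by push_cast; rfl, Complex.norm_real]
      norm_num
    rw [hn] at h4
    rw [div_le_iff₀ (by positivity)]
    have h7 : 8 / 3 * Real.pi ≤ (eLpNorm f ∞ haarAddCircle).toReal * (3 * Real.sqrt 3) := by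
      have := mul_le_mul_of_nonneg_right h4 hpi.le
      have e : (eLpNorm f ∞ haarAddCircle).toReal * (3 * Real.sqrt 3 / Real.pi) * Real.pi =
          (eLpNorm f ∞ haarAddCircle).toReal * (3 * Real.sqrt 3) := by
        field_simp
      rwa [e] at this
    linarith

/-! ### the case `N = 3` -/

/-- the symbol for `N = 3` -/
def b3 (n : ℤ) : ℂ := if n = 1 ∨ n = -1 then -1 / 2 else if n = 3 ∨ n = -3 then 5 / 6 else 0

lemma b3_conj (n : ℤ) : b3 (-n) = conj (b3 n) := by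
  unfold b3
  have h1 : (-n = 1 ∨ -n = -1) ↔ (n = 1 ∨ n = -1) := by omega
  have h2 : (-n = 3 ∨ -n = -3) ↔ (n = 3 ∨ n = -3) := by omega
  simp only [h1, h2]
  split_ifs
  · simp [Complex.conj_ofNat]
  · simp [Complex.conj_ofNat]
  · simp

lemma block (u v : ℂ) : ‖-1 / 2 * u + 5 / 6 * v‖ ^ 2 + ‖-1 / 2 * u + -1 / 2 * v‖ ^ 2 ≤
    ‖u‖ ^ 2 + ‖v‖ ^ 2 := by
  rw [← Complex.normSq_eq_norm_sq, ← Complex.normSq_eq_norm_sq, ← Complex.normSq_eq_norm_sq,
    ← Complex.normSq_eq_norm_sq, Complex.normSq_apply, Complex.normSq_apply,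
    Complex.normSq_apply, Complex.normSq_apply]
  have e1 : (-1 / 2 * u + 5 / 6 * v : ℂ).re = -1 / 2 * u.re + 5 / 6 * v.re := by
    have : (-1 / 2 * u + 5 / 6 * v : ℂ) = ((-1 / 2 : ℝ) : ℂ) * u + ((5 / 6 : ℝ) : ℂ) * v := by
      push_cast; ring
    rw [this, Complex.add_re, Complex.re_ofReal_mul, Complex.re_ofReal_mul]
  have e2 : (-1 / 2 * u + 5 / 6 * v : ℂ).im = -1 / 2 * u.im + 5 / 6 * v.im := by
    have : (-1 / 2 * u + 5 / 6 * v : ℂ) = ((-1 / 2 : ℝ) : ℂ) * u + ((5 / 6 : ℝ) : ℂ) * v := by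
      push_cast; ring
    rw [this, Complex.add_im, Complex.im_ofReal_mul, Complex.im_ofReal_mul]
  have e3 : (-1 / 2 * u + -1 / 2 * v : ℂ).re = -1 / 2 * u.re + -1 / 2 * v.re := by
    have : (-1 / 2 * u + -1 / 2 * v : ℂ) = ((-1 / 2 : ℝ) : ℂ) * u + ((-1 / 2 : ℝ) : ℂ) * v := by
      push_cast; ring
    rw [this, Complex.add_re, Complex.re_ofReal_mul, Complex.re_ofReal_mul]
  have e4 : (-1 / 2 * u + -1 / 2 * v : ℂ).im = -1 / 2 * u.im + -1 / 2 * v.im := by
    have : (-1 / 2 * u + -1 / 2 * v : ℂ) = ((-1 / 2 : ℝ) : ℂ) * u + ((-1 / 2 : ℝ) : ℂ) * v := by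
      push_cast; ring
    rw [this, Complex.add_im, Complex.im_ofReal_mul, Complex.im_ofReal_mul]
  rw [e1, e2, e3, e4]
  nlinarith [sq_nonneg (u.re + v.re / 3), sq_nonneg (u.im + v.im / 3)]

lemma opn_b3 : opn 3 b3 ≤ 1 := by
  refine opn_le_of 3 _ 1 zero_le_one fun x => ?_
  rw [one_pow, one_mul]
  set y := x.ofLp with hy
  have v0 : (toep 3 b3).mulVec y 0 = -1 / 2 * y 1 + 5 / 6 * y 3 := by
    simp [Matrix.mulVec, dotProduct, Fin.sum_univ_four, toep, b3]
  have v1 : (toep 3 b3).mulVec y 1 = -1 / 2 * y 0 + -1 / 2 * y 2 := by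
    simp [Matrix.mulVec, dotProduct, Fin.sum_univ_four, toep, b3]
  have v2 : (toep 3 b3).mulVec y 2 = -1 / 2 * y 1 + -1 / 2 * y 3 := by
    simp [Matrix.mulVec, dotProduct, Fin.sum_univ_four, toep, b3]
  have v3 : (toep 3 b3).mulVec y 3 = 5 / 6 * y 0 + -1 / 2 * y 2 := by
    simp [Matrix.mulVec, dotProduct, Fin.sum_univ_four, toep, b3]
  rw [Fin.sum_univ_four, Fin.sum_univ_four, v0, v1, v2, v3]
  have h1 := block (y 1) (y 3)
  have h2 := block (y 2) (y 0)
  have e1 : (-1 / 2 * y 2 + 5 / 6 * y 0 : ℂ) = 5 / 6 * y 0 + -1 / 2 * y 2 := by ring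
  have e2 : (-1 / 2 * y 2 + -1 / 2 * y 0 : ℂ) = -1 / 2 * y 0 + -1 / 2 * y 2 := by ring
  rw [e1, e2] at h2
  linarith

/-- coefficients of the second test polynomial -/
def c3 (n : ℤ) : ℂ := if n = 1 ∨ n = -1 then -3 else 4

lemma norm_test3 : ∫ x : 𝕋, ‖∑ n ∈ ({1, -1, 3, -3} : Finset ℤ), c3 n * fourier n x‖
    ∂haarAddCircle = 56 / (3 * Real.pi) := by
  rw [integral_circle _ (-(Real.pi / 2))]
  have h1 : ∀ x : ℝ, ‖∑ n ∈ ({1, -1, 3, -3} : Finset ℤ), c3 n * fourier n (x : 𝕋)‖ =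
      2 * |g3 x| := by
    intro x
    have e1 : ∑ n ∈ ({1, -1, 3, -3} : Finset ℤ), c3 n * fourier n (x : 𝕋) =
        ((2 * g3 x : ℝ) : ℂ) := by
      rw [Finset.sum_insert (by decide), Finset.sum_insert (by decide),
        Finset.sum_insert (by decide), Finset.sum_singleton]
      have f1 := fourier_cos 1 x
      have f2 := fourier_cos 3 x
      have q1 : c3 1 = -3 := by simp [c3]
      have q2 : c3 (-1) = -3 := by simp [c3]
      have q3 : c3 3 = 4 := by simp [c3]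
      have q4 : c3 (-3) = 4 := by simp [c3]
      rw [q1, q2, q3, q4]
      have e2 : (-3 : ℂ) * fourier 1 (x : 𝕋) + (-3 * fourier (-1) (x : 𝕋) +
          (4 * fourier 3 (x : 𝕋) + 4 * fourier (-3) (x : 𝕋))) =
          -3 * (fourier 1 (x : 𝕋) + fourier (-1) (x : 𝕋)) +
          4 * (fourier 3 (x : 𝕋) + fourier (-3) (x : 𝕋)) := by ring
      rw [e2, f1, f2, g3]
      push_cast
      rw [one_mul]
      ring
    rw [e1, Complex.norm_real, Real.norm_eq_abs, abs_mul, abs_of_pos (by norm_num : (0:ℝ) < 2)]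
  have h2 : ∫ x in (-(Real.pi / 2))..(-(Real.pi / 2) + 2 * Real.pi),
      ‖∑ n ∈ ({1, -1, 3, -3} : Finset ℤ), c3 n * fourier n (x : 𝕋)‖ =
      ∫ x in (-(Real.pi / 2))..(-(Real.pi / 2) + 2 * Real.pi), 2 * |g3 x| :=
    intervalIntegral.integral_congr fun x _ => h1 x
  rw [h2, intervalIntegral.integral_const_mul, int_g3]
  have := Real.pi_ne_zero
  field_simp

lemma three : ∃ r ∈ ratios 3, 8 * Real.pi / (9 * Real.sqrt 3) ≤ r := by
  have hpi := Real.pi_pos
  have hs3 : 0 < Real.sqrt 3 := Real.sqrt_pos.2 (by norm_num)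
  have hcmp : 8 * Real.pi / (9 * Real.sqrt 3) ≤ 29 * Real.pi / 56 := by
    rw [div_le_div_iff₀ (by positivity) (by norm_num)]
    have h1 : (1.7320 : ℝ) ≤ Real.sqrt 3 := by
      rw [Real.le_sqrt' (by norm_num)]; norm_num
    nlinarith
  refine lower 3 b3 b3_conj ?_ opn_b3 _ (by positivity) ?_
  · intro h0
    have h4 : toep 3 b3 1 0 = 0 := by rw [h0]; rfl
    have h5 : toep 3 b3 1 0 = -1 / 2 := by
      simp [toep, b3]
    rw [h5] at h4
    norm_num at h4
  · rintro f ⟨hf1, hf2⟩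
    refine hcmp.trans ?_
    have h4 := pair_le f hf1 ({1, -1, 3, -3} : Finset ℤ) c3 1 one_ne_zero
    rw [norm_test3] at h4
    have hsum : ∑ n ∈ ({1, -1, 3, -3} : Finset ℤ), c3 n * fourierCoeff f (-(1 * n)) =
        29 / 3 := by
      rw [Finset.sum_insert (by decide), Finset.sum_insert (by decide),
        Finset.sum_insert (by decide), Finset.sum_singleton]
      rw [hf2 _ (by norm_num), hf2 _ (by norm_num), hf2 _ (by norm_num), hf2 _ (by norm_num)]
      have q1 : c3 1 = -3 := by simp [c3]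
      have q2 : c3 (-1) = -3 := by simp [c3]
      have q3 : c3 3 = 4 := by simp [c3]
      have q4 : c3 (-3) = 4 := by simp [c3]
      have r1 : b3 (-(1 * 1)) = -1 / 2 := by simp [b3]
      have r2 : b3 (-(1 * -1)) = -1 / 2 := by simp [b3]
      have r3 : b3 (-(1 * 3)) = 5 / 6 := by simp [b3]
      have r4 : b3 (-(1 * -3)) = 5 / 6 := by simp [b3]
      rw [q1, q2, q3, q4, r1, r2, r3, r4]
      norm_num
    rw [hsum] at h4
    have hn : ‖(29 / 3 : ℂ)‖ = 29 / 3 := by
      rw [show (29 / 3 : ℂ) = ((29 / 3 : ℝ) : ℂ) by push_cast; rfl, Complex.norm_real]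
      norm_num
    rw [hn] at h4
    have h7 : 29 / 3 * (3 * Real.pi) ≤ (eLpNorm f ∞ haarAddCircle).toReal * 56 := by
      have := mul_le_mul_of_nonneg_right h4 (by positivity : (0:ℝ) ≤ 3 * Real.pi)
      have e : (eLpNorm f ∞ haarAddCircle).toReal * (56 / (3 * Real.pi)) * (3 * Real.pi) =
          (eLpNorm f ∞ haarAddCircle).toReal * 56 := by
        field_simp
      rwa [e] at this
    linarith

/-- **Theorem.** For every `N ≥ 2` the mini-max ratio satisfies
`c_N ≥ 8π/(9√3) > π/2`. -/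
theorem result (N : ℕ) (hN : 2 ≤ N) :
    BddAbove (ratios N) ∧ (∃ r ∈ ratios N, 8 * Real.pi / (9 * Real.sqrt 3) ≤ r) ∧
      8 * Real.pi / (9 * Real.sqrt 3) ≤ cN N ∧ Real.pi / 2 < cN N := by
  have hpi := Real.pi_pos
  have hs3 : 0 < Real.sqrt 3 := Real.sqrt_pos.2 (by norm_num)
  have h1 : ∃ r ∈ ratios N, 8 * Real.pi / (9 * Real.sqrt 3) ≤ r := by
    rcases eq_or_ne N 3 with rfl | h3
    · exact three
    · exact family N (N / 2) (by omega) (by omega) (by omega)
  obtain ⟨r, hr, hr2⟩ := h1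
  have h2 : 8 * Real.pi / (9 * Real.sqrt 3) ≤ cN N := hr2.trans (le_csSup (bdd N) hr)
  refine ⟨bdd N, ⟨r, hr, hr2⟩, h2, lt_of_lt_of_le ?_ h2⟩
  rw [div_lt_div_iff₀ (by norm_num) (by positivity)]
  have h4 : Real.sqrt 3 < 16 / 9 := by
    rw [Real.sqrt_lt' (by norm_num)]; norm_num
  nlinarith

end Pool.Agent.Results.MP_becf51_an.AllN
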